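import Mathlib

/-!
Heavy problem MP_b8862a_ag: the numerical part of the sharp bound for several positive levels.
-/

namespace MH

/-- The polynomial of the sharp bound: `q (s + (d - N) (N - 2 I)) - 2 F s² (d + 2 N) + F s q (N + I)` with
`q = (s + 1)²`. -/
private def HP (s F N d I : ℝ) : ℝ :=
  (s + 1) ^ 2 * (s + (d - N) * (N - 2 * I)) - 2 * F * s ^ 2 * (d + 2 * N) + F * s * (s + 1) ^ 2 * (N + I)

/-- The value at `d = N + 1`. -/
private lemma HP_A {s F N I : ℝ} (hs : 4 ≤ s) (hF : 1 ≤ F) (hF' : F ≤ s - 1) (hN : s + 2 ≤ N) (hI : 0 ≤ I) :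
    0 < HP s F N (N + 1) I := by
  have e : HP s F N (N + 1) I = ((s + 1) ^ 2 * s - 2 * F * s ^ 2 + N * (s + 1) ^ 2) +
      N * (F * (s * (s ^ 2 - 4 * s + 1))) + (s + 1) ^ 2 * (I * (F * s - 2)) := by
    unfold HP; ring
  rw [e]
  have h1 : 0 < (s + 1) ^ 2 * s - 2 * F * s ^ 2 + N * (s + 1) ^ 2 := by
    have h2 : (s + 2) * (s + 1) ^ 2 ≤ N * (s + 1) ^ 2 := mul_le_mul_of_nonneg_right hN (by positivity)
    have h3 : F * s ^ 2 ≤ (s - 1) * s ^ 2 := mul_le_mul_of_nonneg_right hF' (by positivity)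
    nlinarith [sq_nonneg s]
  have h2 : 0 ≤ N * (F * (s * (s ^ 2 - 4 * s + 1))) := by
    have h3 : 0 ≤ s ^ 2 - 4 * s + 1 := by nlinarith
    have h4 : 0 ≤ N := by linarith
    positivity
  have h3 : 0 ≤ (s + 1) ^ 2 * (I * (F * s - 2)) := by
    have h4 : 0 ≤ F * s - 2 := by nlinarith
    positivity
  linarith

/-- The value at `N = s + j + 1`, `d = F² + j² + 1`, for `j ≤ F`. -/
private lemma HP_B1 {t r I : ℝ} (ht : 0 ≤ t) (hr : 0 ≤ r) (htr : 1 ≤ t + r) (hI : 0 ≤ I) (hI' : I ≤ 2 * (t + 1)) :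
    0 < HP (2 * (t + 1) + r) (t + 1 + r) (3 * (t + 1) + r + 1) ((t + 1 + r) ^ 2 + (t + 1) ^ 2 + 1) I := by
  have h0 : 0 < HP (2 * (t + 1) + r) (t + 1 + r) (3 * (t + 1) + r + 1) ((t + 1 + r) ^ 2 + (t + 1) ^ 2 + 1) 0 := by
    have e : HP (2 * (t + 1) + r) (t + 1 + r) (3 * (t + 1) + r + 1) ((t + 1 + r) ^ 2 + (t + 1) ^ 2 + 1) 0 =
        32 * t ^ 5 + 76 * t ^ 4 * r + 140 * t ^ 4 + 72 * t ^ 3 * r ^ 2 + 268 * t ^ 3 * r + 204 * t ^ 3 +
        31 * t ^ 2 * r ^ 3 + 201 * t ^ 2 * r ^ 2 + 301 * t ^ 2 * r + 83 * t ^ 2 + 5 * t * r ^ 4 + 63 * t * r ^ 3 +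
        168 * t * r ^ 2 + 99 * t * r - 47 * t + 6 * r ^ 4 + 30 * r ^ 3 + 40 * r ^ 2 - 10 * r - 34 := by
      unfold HP; ring
    rw [e]
    have h1 : 0 ≤ t ^ 5 := by positivity
    have h2 : 0 ≤ t ^ 4 * r := by positivity
    have h3 : 0 ≤ t ^ 4 := by positivity
    have h4 : 0 ≤ t ^ 3 * r ^ 2 := by positivity
    have h5 : 0 ≤ t ^ 3 * r := by positivity
    have h6 : 0 ≤ t ^ 3 := by positivity
    have h7 : 0 ≤ t ^ 2 * r ^ 3 := by positivity
    have h8 : 0 ≤ t ^ 2 * r ^ 2 := by positivity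
    have h9 : 0 ≤ t ^ 2 * r := by positivity
    have h10 : 0 ≤ t * r ^ 4 := by positivity
    have h11 : 0 ≤ t * r ^ 3 := by positivity
    have h12 : 0 ≤ t * r ^ 2 := by positivity
    have h13 : 0 ≤ r ^ 4 := by positivity
    have h14 : 0 ≤ r ^ 3 := by positivity
    have h15 : 0 ≤ t * r := by positivity
    have k1 : 0 < 204 * t ^ 3 + 301 * t ^ 2 * r + 83 * t ^ 2 + 168 * t * r ^ 2 + 99 * t * r - 47 * t + 30 * r ^ 3 +
        40 * r ^ 2 - 10 * r - 34 := by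
      have m1 : (t + r) ^ 2 * 1 ≤ (t + r) ^ 2 * (t + r) := mul_le_mul_of_nonneg_left htr (by positivity)
      have m2 : (t + r) * 1 ≤ (t + r) * (t + r) := mul_le_mul_of_nonneg_left htr (by positivity)
      nlinarith [sq_nonneg (t - 1), sq_nonneg (r - 1), sq_nonneg (t + r - 1)]
    linarith
  have h1 : 0 < HP (2 * (t + 1) + r) (t + 1 + r) (3 * (t + 1) + r + 1) ((t + 1 + r) ^ 2 + (t + 1) ^ 2 + 1)
      (2 * (t + 1)) := by
    have e : HP (2 * (t + 1) + r) (t + 1 + r) (3 * (t + 1) + r + 1) ((t + 1 + r) ^ 2 + (t + 1) ^ 2 + 1)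
        (2 * (t + 1)) =
        16 * t ^ 5 + 52 * t ^ 4 * r + 92 * t ^ 4 + 52 * t ^ 3 * r ^ 2 + 220 * t ^ 3 * r + 216 * t ^ 3 +
        21 * t ^ 2 * r ^ 3 + 157 * t ^ 2 * r ^ 2 + 339 * t ^ 2 * r + 259 * t ^ 2 + 3 * t * r ^ 4 + 43 * t * r ^ 3 +
        146 * t * r ^ 2 + 227 * t * r + 157 * t + 4 * r ^ 4 + 20 * r ^ 3 + 42 * r ^ 2 + 56 * r + 38 := by
      unfold HP; ring
    rw [e]
    positivity
  have e : 2 * (t + 1) * HP (2 * (t + 1) + r) (t + 1 + r) (3 * (t + 1) + r + 1)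
      ((t + 1 + r) ^ 2 + (t + 1) ^ 2 + 1) I =
      (2 * (t + 1) - I) * HP (2 * (t + 1) + r) (t + 1 + r) (3 * (t + 1) + r + 1)
        ((t + 1 + r) ^ 2 + (t + 1) ^ 2 + 1) 0 +
      I * HP (2 * (t + 1) + r) (t + 1 + r) (3 * (t + 1) + r + 1) ((t + 1 + r) ^ 2 + (t + 1) ^ 2 + 1)
        (2 * (t + 1)) := by
    unfold HP; ring
  have h2 : 0 < 2 * (t + 1) * HP (2 * (t + 1) + r) (t + 1 + r) (3 * (t + 1) + r + 1)
      ((t + 1 + r) ^ 2 + (t + 1) ^ 2 + 1) I := by
    rw [e]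
    rcases eq_or_lt_of_le hI' with h | h
    · rw [h, sub_self, zero_mul, zero_add]
      exact mul_pos (by linarith) h1
    · have := mul_pos (sub_pos.2 h) h0
      have := mul_nonneg hI h1.le
      linarith
  exact (mul_pos_iff_of_pos_left (by linarith)).1 h2

/-- The value at `N = s + j + 1`, `d = F² + j F + 1`, for `2 ≤ F ≤ j`. -/
private lemma HP_B2 {t r I : ℝ} (ht : 1 ≤ t) (hr : 0 ≤ r) (hI : 0 ≤ I) (hI' : I ≤ 2 * (t + 1 + r)) :
    0 < HP (2 * (t + 1) + r) (t + 1) (3 * (t + 1) + 2 * r + 1) ((t + 1) * (2 * (t + 1) + r) + 1) I := by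
  have h0 : 0 < HP (2 * (t + 1) + r) (t + 1) (3 * (t + 1) + 2 * r + 1) ((t + 1) * (2 * (t + 1) + r) + 1) 0 := by
    have e : HP (2 * (t + 1) + r) (t + 1) (3 * (t + 1) + 2 * r + 1) ((t + 1) * (2 * (t + 1) + r) + 1) 0 =
        32 * t ^ 5 + 80 * t ^ 4 * r + 140 * t ^ 4 + 72 * t ^ 3 * r ^ 2 + 260 * t ^ 3 * r + 204 * t ^ 3 +
        28 * t ^ 2 * r ^ 3 + 155 * t ^ 2 * r ^ 2 + 232 * t ^ 2 * r + 83 * t ^ 2 + 4 * t * r ^ 4 + 30 * t * r ^ 3 +
        51 * t * r ^ 2 - 12 * t * r - 47 * t - 7 * r ^ 3 - 38 * r ^ 2 - 65 * r - 34 := by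
      unfold HP; ring
    rw [e]
    have m1 : r ^ 3 * 1 ≤ r ^ 3 * t := mul_le_mul_of_nonneg_left ht (by positivity)
    have m2 : r ^ 2 * 1 ≤ r ^ 2 * t := mul_le_mul_of_nonneg_left ht (by positivity)
    have m3 : r * 1 ≤ r * t := mul_le_mul_of_nonneg_left ht hr
    have m4 : r * t * 1 ≤ r * t * t := mul_le_mul_of_nonneg_left ht (by positivity)
    have m5 : t * 1 ≤ t * t := mul_le_mul_of_nonneg_left ht (by linarith)
    have m6 : t ^ 2 * 1 ≤ t ^ 2 * t := mul_le_mul_of_nonneg_left ht (by positivity)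
    have h1 : 0 ≤ t ^ 5 := by positivity
    have h2 : 0 ≤ t ^ 4 * r := by positivity
    have h3 : 0 ≤ t ^ 4 := by positivity
    have h4 : 0 ≤ t ^ 3 * r ^ 2 := by positivity
    have h5 : 0 ≤ t ^ 3 * r := by positivity
    have h7 : 0 ≤ t ^ 2 * r ^ 3 := by positivity
    have h8 : 0 ≤ t ^ 2 * r ^ 2 := by positivity
    have h10 : 0 ≤ t * r ^ 4 := by positivity
    have h11 : 0 ≤ r ^ 3 := by positivity
    have h12 : 0 ≤ r ^ 2 := by positivity
    nlinarith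
  have h1 : 0 < HP (2 * (t + 1) + r) (t + 1) (3 * (t + 1) + 2 * r + 1) ((t + 1) * (2 * (t + 1) + r) + 1)
      (2 * (t + 1 + r)) := by
    have e : HP (2 * (t + 1) + r) (t + 1) (3 * (t + 1) + 2 * r + 1) ((t + 1) * (2 * (t + 1) + r) + 1)
        (2 * (t + 1 + r)) =
        16 * t ^ 5 + 40 * t ^ 4 * r + 92 * t ^ 4 + 36 * t ^ 3 * r ^ 2 + 196 * t ^ 3 * r + 216 * t ^ 3 +
        14 * t ^ 2 * r ^ 3 + 151 * t ^ 2 * r ^ 2 + 378 * t ^ 2 * r + 259 * t ^ 2 + 2 * t * r ^ 4 + 50 * t * r ^ 3 +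
        221 * t * r ^ 2 + 332 * t * r + 157 * t + 6 * r ^ 4 + 43 * r ^ 3 + 108 * r ^ 2 + 109 * r + 38 := by
      unfold HP; ring
    rw [e]
    have h2 : 0 ≤ t := by linarith
    positivity
  have e : 2 * (t + 1 + r) * HP (2 * (t + 1) + r) (t + 1) (3 * (t + 1) + 2 * r + 1)
      ((t + 1) * (2 * (t + 1) + r) + 1) I =
      (2 * (t + 1 + r) - I) * HP (2 * (t + 1) + r) (t + 1) (3 * (t + 1) + 2 * r + 1)
        ((t + 1) * (2 * (t + 1) + r) + 1) 0 +
      I * HP (2 * (t + 1) + r) (t + 1) (3 * (t + 1) + 2 * r + 1) ((t + 1) * (2 * (t + 1) + r) + 1)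
        (2 * (t + 1 + r)) := by
    unfold HP; ring
  have h2 : 0 < 2 * (t + 1 + r) * HP (2 * (t + 1) + r) (t + 1) (3 * (t + 1) + 2 * r + 1)
      ((t + 1) * (2 * (t + 1) + r) + 1) I := by
    rw [e]
    rcases eq_or_lt_of_le hI' with h | h
    · rw [h, sub_self, zero_mul, zero_add]
      exact mul_pos (by linarith) h1
    · have := mul_pos (sub_pos.2 h) h0
      have := mul_nonneg hI h1.le
      linarith
  exact (mul_pos_iff_of_pos_left (by linarith)).1 h2

/-- Positivity between `N = N₀` and `N = d - 1`, `d = N₀ + 1` and `d = D`. -/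
private lemma HP_interp {s F N d I N₀ D : ℝ} (hN : N₀ ≤ N) (hd : N + 1 ≤ d) (hD : d ≤ D)
    (hA : ∀ N', N₀ ≤ N' → 0 < HP s F N' (N' + 1) I) (hB : 0 < HP s F N₀ D I) : 0 < HP s F N d I := by
  -- first `N = N₀`
  have h1 : 0 < HP s F N₀ d I := by
    rcases eq_or_lt_of_le hD with h | h
    · rw [h]; exact hB
    · have e : (D - (N₀ + 1)) * HP s F N₀ d I = (D - d) * HP s F N₀ (N₀ + 1) I +
          (d - (N₀ + 1)) * HP s F N₀ D I := by
        unfold HP; ring
      have h2 : 0 < (D - (N₀ + 1)) * HP s F N₀ d I := by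
        rw [e]
        have := mul_pos (sub_pos.2 h) (hA N₀ le_rfl)
        have := mul_nonneg (by linarith : 0 ≤ d - (N₀ + 1)) hB.le
        linarith
      exact (mul_pos_iff_of_pos_left (by linarith)).1 h2
  rcases eq_or_lt_of_le hN with h | h
  · rw [← h]; exact h1
  · have e : (d - 1 - N₀) * HP s F N d I = (d - 1 - N) * HP s F N₀ d I + (N - N₀) * HP s F (d - 1) (d - 1 + 1) I +
        (d - 1 - N₀) * ((d - 1 - N) * ((N - N₀) * (s + 1) ^ 2)) := by
      unfold HP; ring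
    have h2 : 0 < (d - 1 - N₀) * HP s F N d I := by
      rw [e]
      have a1 := mul_nonneg (by linarith : 0 ≤ d - 1 - N) h1.le
      have a2 := mul_pos (sub_pos.2 h) (hA (d - 1) (by linarith))
      have a3 : 0 ≤ (d - 1 - N₀) * ((d - 1 - N) * ((N - N₀) * (s + 1) ^ 2)) :=
        mul_nonneg (by linarith) (mul_nonneg (by linarith) (mul_nonneg (by linarith) (by positivity)))
      linarith
    exact (mul_pos_iff_of_pos_left (by linarith)).1 h2

/-- **The numerical part of the sharp bound for several positive levels.** Here `n = b + 2 s`, `F` is the largest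
multiplicity of a positive level, `j = s - F` the sum of the other ones. -/
theorem num_multi {s F j b N d : ℕ} {W U I c S : ℝ} (hs : 2 ≤ s) (hj : 1 ≤ j) (hF : F + j = s)
    (hb : s ^ 2 + 1 ≤ b) (n2 : ((b : ℝ) + 2 * s) * (W + N - U / 2) = s * (d + 2 * N)) (n3 : 1 / 2 ≤ W)
    (n4 : S + 1 ≤ 2 * F * W) (n5 : c * (d - N) ≤ S) (n6 : (2 * N - U - 2 * I) ^ 2 ≤ c * s * N) (n7 : 0 ≤ U)
    (n7' : 0 ≤ I) (n7'' : U + I ≤ N) (n8 : I * (b + 2 * s) ≤ 2 * j * (d + 2 * N))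
    (n9 : d ≤ F ^ 2 + j * min j F + 1) (n10 : b ≤ F * N) : False := by
  have hFpos : 1 ≤ F := by
    by_contra h
    have h1 : F = 0 := by omega
    rw [h1, zero_mul] at n10
    omega
  have hjR : (1 : ℝ) ≤ j := by exact_mod_cast hj
  have hFR : (1 : ℝ) ≤ F := by exact_mod_cast hFpos
  have hsR : (2 : ℝ) ≤ s := by exact_mod_cast hs
  have hFsR : (F : ℝ) + j = s := by exact_mod_cast hF
  have hbR : (s : ℝ) ^ 2 + 1 ≤ b := by exact_mod_cast hb
  have hn : ((s : ℝ) + 1) ^ 2 ≤ (b : ℝ) + 2 * s := by nlinarith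
  -- `N ≥ s + j + 1`
  have hN : s + j + 1 ≤ N := by
    by_contra h
    have h1 : N ≤ s + j := by omega
    have h2 : F * N ≤ F * (s + j) := Nat.mul_le_mul_left F h1
    have h3 : F * (s + j) + j ^ 2 = s ^ 2 := by rw [← hF]; ring
    omega
  have hNR : (s : ℝ) + j + 1 ≤ N := by exact_mod_cast hN
  have hN0 : (0 : ℝ) < N := by linarith
  -- the first inequality
  have q1 : ((s : ℝ) + 1) ^ 2 * (1 / 2 + N / 2) ≤ s * (d + 2 * N) := by
    rw [← n2]
    refine mul_le_mul hn (by linarith) (by linarith) (by positivity)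
  have q2 : ((s : ℝ) - 1) ^ 2 * N + (s + 1) ^ 2 ≤ 2 * s * d := by nlinarith
  -- the bound for `d`
  have hmin : j * min j F ≤ j * F := Nat.mul_le_mul_left j (min_le_right _ _)
  have hD : d + 2 * s ≤ s ^ 2 + 3 := by
    rcases le_total j F with h | h
    · rw [min_eq_left h] at n9
      have h1 : F ^ 2 + j * j + 2 * (F * j) = s ^ 2 := by rw [← hF]; ring
      have h2 : s ≤ F * j + 1 := by
        rw [← hF]
        nlinarith [Nat.mul_le_mul (Nat.sub_le F 1) (Nat.sub_le j 1), mul_nonneg (Nat.zero_le (F - 1)) (Nat.zero_le (j - 1)),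
          Nat.sub_add_cancel hFpos, Nat.sub_add_cancel hj]
      omega
    · rw [min_eq_right h] at n9
      have h1 : F ^ 2 + j * F = F * s := by rw [← hF]; ring
      have h3 : F * s + 2 * s ≤ s ^ 2 + 2 := by
        have h4 : 2 * F ≤ s := by omega
        have h5 : (2 * F) * s ≤ s * s := Nat.mul_le_mul_right s h4
        have h6 : 4 * s ≤ s * s + 4 := by
          zify
          nlinarith [sq_nonneg ((s : ℤ) - 2)]
        nlinarith
      omega
  have hDR : (d : ℝ) + 2 * s ≤ s ^ 2 + 3 := by exact_mod_cast hD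
  -- `N ≤ 2 s - 1`
  have hN2 : (N : ℝ) + 1 ≤ 2 * s := by
    by_contra h
    push Not at h
    have h1 : ((s : ℝ) - 1) ^ 2 * (2 * s - 1) < (s - 1) ^ 2 * N := by
      apply mul_lt_mul_of_pos_left (by linarith)
      have : (0 : ℝ) < s - 1 := by linarith
      positivity
    nlinarith
  have hdN : (d : ℝ) + 2 * N ≤ b + 2 * s := by nlinarith
  -- `I ≤ 2 j`
  have hI2 : I ≤ 2 * j := by
    have h1 : I * ((b : ℝ) + 2 * s) ≤ 2 * j * ((b : ℝ) + 2 * s) :=
      n8.trans (mul_le_mul_of_nonneg_left hdN (by positivity))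
    exact le_of_mul_le_mul_right h1 (by positivity)
  -- `d ≥ N + 1`
  have hdN1 : N + 1 ≤ d := by
    by_contra h
    have h1 : (d : ℝ) ≤ N := by
      have : d ≤ N := by omega
      exact_mod_cast this
    rcases le_or_gt 4 s with h4 | h4
    · have h4R : (4 : ℝ) ≤ s := by exact_mod_cast h4
      have h5 : 0 ≤ (N : ℝ) * (s ^ 2 - 4 * s + 1) := mul_nonneg hN0.le (by nlinarith)
      have h6 : 2 * (s : ℝ) * d ≤ 2 * s * N := mul_le_mul_of_nonneg_left h1 (by positivity)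
      nlinarith
    · have h5 : s = 2 ∨ s = 3 := by omega
      rcases h5 with rfl | rfl
      · norm_num at hDR q2 hNR
        linarith
      · norm_num at hDR q2 hNR
        linarith
  have hdN1R : (N : ℝ) + 1 ≤ d := by exact_mod_cast hdN1
  -- the main inequality
  have hU : U ≤ N - I := by linarith
  have c1 : (N : ℝ) - 2 * I ≤ c * s := by
    have h1 : ((N : ℝ) - I) ^ 2 ≤ (2 * N - U - 2 * I) ^ 2 := by
      apply pow_le_pow_left₀ (by linarith) (by linarith)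
    have h2 : (N : ℝ) * (N - 2 * I) ≤ N * (c * s) := by nlinarith [sq_nonneg I]
    exact le_of_mul_le_mul_left h2 hN0
  have c2 : ((N : ℝ) - 2 * I) * (d - N) ≤ s * S := by
    have h1 : ((N : ℝ) - 2 * I) * (d - N) ≤ c * s * (d - N) := mul_le_mul_of_nonneg_right c1 (by linarith)
    have h2 : (s : ℝ) * (c * (d - N)) ≤ s * S := mul_le_mul_of_nonneg_left n5 (by positivity)
    nlinarith
  have c3 : (s : ℝ) + (d - N) * (N - 2 * I) ≤ 2 * F * s * W := by
    have h1 : (s : ℝ) * (S + 1) ≤ s * (2 * F * W) := mul_le_mul_of_nonneg_left n4 (by positivity)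
    nlinarith
  have c4 : ((s : ℝ) + 1) ^ 2 * (W + (N + I) / 2) ≤ s * (d + 2 * N) := by
    rw [← n2]
    refine mul_le_mul hn (by linarith) (by linarith) (by positivity)
  have c5 : HP s F N d I ≤ 0 := by
    unfold HP
    have h1 : ((s : ℝ) + 1) ^ 2 * (s + (d - N) * (N - 2 * I)) ≤ (s + 1) ^ 2 * (2 * F * s * W) :=
      mul_le_mul_of_nonneg_left c3 (by positivity)
    have h2 : 2 * (F : ℝ) * s * (((s : ℝ) + 1) ^ 2 * (W + (N + I) / 2)) ≤ 2 * F * s * (s * (d + 2 * N)) :=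
      mul_le_mul_of_nonneg_left c4 (by positivity)
    nlinarith
  -- small `s`
  rcases le_or_gt 4 s with h4 | h4
  swap
  · have h5 : s = 2 ∨ s = 3 := by omega
    rcases h5 with rfl | rfl
    · norm_num at hDR hNR
      linarith
    · have h6 : (j = 1 ∧ F = 2) ∨ (j = 2 ∧ F = 1) := by omega
      rcases h6 with ⟨rfl, rfl⟩ | ⟨rfl, rfl⟩
      · norm_num at n9
        have h7 : N = 5 := by omega
        have h8 : d = 6 := by omega
        subst h7 h8
        unfold HP at c5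
        norm_num at c5
        linarith
      · norm_num at n9
        omega
  have h4R : (4 : ℝ) ≤ s := by exact_mod_cast h4
  have hA : ∀ N' : ℝ, (s : ℝ) + j + 1 ≤ N' → 0 < HP s F N' (N' + 1) I := fun N' hN' =>
    HP_A h4R hFR (by linarith) (by linarith) n7'
  refine absurd c5 (not_le.2 ?_)
  rcases le_total j F with h | h
  · have h1 : (d : ℝ) ≤ (F : ℝ) ^ 2 + j ^ 2 + 1 := by
      rw [min_eq_left h] at n9
      have h2 : d ≤ F ^ 2 + j ^ 2 + 1 := by rw [pow_two j]; exact n9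
      exact_mod_cast h2
    refine HP_interp hNR hdN1R h1 hA ?_
    have hjF : (j : ℝ) ≤ F := by exact_mod_cast h
    have key := HP_B1 (t := (j : ℝ) - 1) (r := (F : ℝ) - j) (I := I) (by linarith) (by linarith) (by linarith) n7'
      (by linarith)
    have e1 : 2 * ((j : ℝ) - 1 + 1) + (F - j) = s := by linarith
    have e2 : (j : ℝ) - 1 + 1 + (F - j) = F := by ring
    have e3 : 3 * ((j : ℝ) - 1 + 1) + (F - j) + 1 = s + j + 1 := by linarith
    have e4 : (j : ℝ) - 1 + 1 = j := by ring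
    rw [e1, e2, e3, e4] at key
    exact key
  · have hF2 : 2 ≤ F := by
      by_contra hcon
      have h1 : F = 1 := by omega
      subst h1
      rw [min_eq_right h] at n9
      omega
    have h1 : (d : ℝ) ≤ (F : ℝ) * s + 1 := by
      rw [min_eq_right h] at n9
      have h2 : F ^ 2 + j * F = F * s := by rw [← hF]; ring
      rw [h2] at n9
      exact_mod_cast n9
    refine HP_interp hNR hdN1R h1 hA ?_
    have hjF : (F : ℝ) ≤ j := by exact_mod_cast h
    have hF2R : (2 : ℝ) ≤ F := by exact_mod_cast hF2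
    have key := HP_B2 (t := (F : ℝ) - 1) (r := (j : ℝ) - F) (I := I) (by linarith) (by linarith) n7'
      (by linarith)
    have e1 : 2 * ((F : ℝ) - 1 + 1) + (j - F) = s := by linarith
    have e3 : 3 * ((F : ℝ) - 1 + 1) + 2 * (j - F) + 1 = s + j + 1 := by linarith
    have e4 : (F : ℝ) - 1 + 1 = F := by ring
    rw [e1, e3, e4] at key
    exact key

end MH
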